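import Mathlib
import Pool.Agent.H.MP_b0ed8d_nt.N1748

namespace Pool.Agent.Results.MP_719c9c_nt.No

open Pool.Agent.H.MP_b0ed8d_nt

/-- some lattice-invariant reflection maps `L` onto itself; the four cases are the axes
`x = k/2`, `y = k/2`, `y = x + k`, `y = -x + k` with `k` an integer -/
def Mirror (L : Set (ℤ × ℤ)) : Prop :=
  ∃ k : ℤ, (fun p : ℤ × ℤ => (k - p.1, p.2)) '' L = L ∨ (fun p : ℤ × ℤ => (p.1, k - p.2)) '' L = L ∨
    (fun p : ℤ × ℤ => (p.2 - k, p.1 + k)) '' L = L ∨ (fun p : ℤ × ℤ => (k - p.2, k - p.1)) '' L = L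

lemma mem_b (z : ℤ × ℤ) : z ∈ bdry (659 / 26) (655 / 26) (√(378250 / 676)) ↔
    (26 * z.1 - 659) ^ 2 + (26 * z.2 - 655) ^ 2 = 378250 := by
  have hr : (√(378250 / 676) : ℝ) ^ 2 = 378250 / 676 := Real.sq_sqrt (by norm_num)
  simp only [bdry, Set.mem_ofPred_eq, hr]
  have : ((26 * (z.1 : ℝ) - 659) ^ 2 + (26 * (z.2 : ℝ) - 655) ^ 2 = 378250) ↔
      (26 * z.1 - 659) ^ 2 + (26 * z.2 - 655) ^ 2 = 378250 := by exact_mod_cast Iff.rfl
  rw [← this]
  constructor <;> intro h <;> linarith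

theorem result : ∃ (n : ℕ) (x y r : ℝ), IsMC n ∧ ¬ IsMC (n + 1) ∧ MCc n x y r ∧
    ¬ Mirror (bdry x y r) := by
  have hr : (√(378250 / 676) : ℝ) ^ 2 = 378250 / 676 := Real.sq_sqrt (by norm_num)
  have hm : marg 26 378250 52 620 (659, 655) = true := by decide +kernel
  have h2 := center_count 26 378250 52 620 (659, 655) (by norm_num) hm
    (659 / 26) (655 / 26) ((√(378250 / 676) : ℝ) ^ 2) (by norm_num) (by norm_num)
    (by rw [hr]; norm_num)
  have h3 : (grid 52).countP (fun p => Nat.blt (d2 26 (659, 655) p) 378250) = 1748 := by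
    decide +kernel
  rw [h3] at h2
  have h6 : MCc 1748 (659 / 26) (655 / 26) (√(378250 / 676)) :=
    thmD 26624 (378250 * 2 ^ 20) 1750 1748 (by norm_num) as_A (by norm_num) _ _ _
      (Real.sqrt_pos.2 (by norm_num)) (by rw [hr]; norm_num) h2
  refine ⟨1748, _, _, _, ⟨_, _, _, h6⟩, as_non, h6, ?_⟩
  have p1 : ((2, 29) : ℤ × ℤ) ∈ bdry (659 / 26) (655 / 26) (√(378250 / 676)) := by
    rw [mem_b]; norm_num
  have p2 : ((4, 15) : ℤ × ℤ) ∈ bdry (659 / 26) (655 / 26) (√(378250 / 676)) := by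
    rw [mem_b]; norm_num
  rintro ⟨k, h | h | h | h⟩
  all_goals
    have a1 := h.subset (Set.mem_image_of_mem _ p1)
    have a2 := h.subset (Set.mem_image_of_mem _ p2)
    rw [mem_b] at a1 a2
    simp only at a1 a2
    have a3 := congrArg₂ (· - ·) a1 a2
    ring_nf at a3
    omega

end Pool.Agent.Results.MP_719c9c_nt.No
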